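import Pool.Agent.Helper3.LT.Gen2
import Pool.Agent.Helper3.FJ.Fin3
import Pool.Agent.Helper83.LT.Met

/-!
# Cocompact actions on kite complexes with infinite cyclic stabilizers
-/

set_option autoImplicit false

namespace Pool.Agent.Helper3.LT

open Relation Pool.Agent.Helper29.BA Pool.Agent.Helper29.PA Pool.Agent.Helper3.FJ
  Pool.Agent.Helper13.LT Pool.Agent.Helper3.FJ.Cpx Pool.Agent.Helper83.LT

section

variable {V : Type} {X : Cpx V} {k : V → ℕ} {G : Type} [Group G] [MulAction G V]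

/-- The number `κ`, second part. -/
theorem exists_boundN (hA : X.Acts G) (hco : X.Cocompact G) (f : G →* Multiplicative ℤ) (N : ℕ) :
    ∃ M : ℕ, ∀ (v : V) (r : G), r • v = v → ∀ k ≤ N, ∀ y : ℕ → V,
      (∀ i < k, X.tri v (y i) (y (i + 1))) → (∀ i ≤ k, ¬ Fx G v (y i)) → y k = r • y 0 →
        (vl f r).natAbs ≤ M := by
  classical
  obtain ⟨S, hSf, -, hS2, -⟩ := id hco
  let J : V × V × V → ℕ → Set G := fun s k =>
    {r | ¬ Fx G s.1 s.2.2 ∧ r • s.1 = s.1 ∧ r • s.2.2 ∈ X.Wk G s.1 k s.2.2}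
  have hJ : ∀ s k, (J s k).Finite := by
    intro s k
    by_cases h : Fx G s.1 s.2.2
    · have : J s k = ∅ := by
        ext r
        simp [J, h]
      rw [this]
      exact Set.finite_empty
    · refine Set.Finite.of_finite_image ((Wk_finite hco s.1 k s.2.2).subset ?_)
        (f := fun r : G => r • s.2.2) ?_
      · rintro _ ⟨r, hr, rfl⟩
        exact hr.2.2
      · intro r hr r' hr' hrr'
        have h1 : r'⁻¹ * r = 1 := by
          by_contra h2
          refine h ⟨_, h2, ?_, ?_⟩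
          · rw [mul_smul, hr.2.1, inv_smul_eq_iff]
            exact hr'.2.1.symm
          · rw [mul_smul, inv_smul_eq_iff]
            exact hrr'
        exact (inv_mul_eq_one.1 h1).symm
  have hfin : (⋃ s ∈ S, ⋃ k ∈ Finset.range (N + 1), J s k).Finite :=
    hSf.biUnion fun s _ => (Finset.finite_toSet _).biUnion fun k _ => hJ s k
  obtain ⟨M, hM⟩ := (hfin.image fun r => (vl f r).natAbs).bddAbove
  refine ⟨M, fun v r hr k hk y h1 h2 h3 => ?_⟩
  rcases Nat.eq_zero_or_pos k with h0 | h0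
  · subst h0
    have : r = 1 := by
      by_contra h4
      exact h2 0 le_rfl ⟨r, h4, hr, h3.symm⟩
    rw [this, vl_one]
    exact Nat.zero_le _
  · obtain ⟨g, hg⟩ := hS2 v (y 0) (X.tri_adj _ _ _ (h1 0 h0))
    · have h4 : g * r * g⁻¹ ∈ J (g • v, g • v, g • y 0) k := by
        refine ⟨fun h5 => h2 0 (Nat.zero_le _) h5.of_smul, ?_, ?_⟩
        · change (g * r * g⁻¹) • g • v = g • v
          rw [mul_smul, inv_smul_smul, mul_smul, hr]
        · change (g * r * g⁻¹) • g • y 0 ∈ X.Wk G (g • v) k (g • y 0)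
          rw [mul_smul, inv_smul_smul, mul_smul, ← h3]
          exact Wk_smul hA g (mem_Wk h1 h2)
      have h5 : g * r * g⁻¹ ∈ ⋃ s ∈ S, ⋃ k ∈ Finset.range (N + 1), J s k := by
        simp only [Set.mem_iUnion]
        exact ⟨_, hg, k, Finset.mem_range.2 (by omega), h4⟩
      have h6 := hM (Set.mem_image_of_mem _ h5)
      simp only [vl_conj] at h6
      exact h6

section quoact

variable (R : Subgroup G) [R.Normal]

variable {R} in
theorem actsK_sub (hA : ActsK G X k) (R : Subgroup G) : ActsK R X k :=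
  ⟨⟨fun g u v h => hA.acts.1 g u v h, fun g u v w h => hA.acts.2 g u v w h⟩,
    fun g v => hA.inv g v, fun g x y h1 h2 h3 => hA.typ g x y h1 h2 h3⟩

/-- The quotient group acts on the quotient. -/
theorem quoK_acts (hA : ActsK G X k) (hK : Kt X k) :
    ActsK (G ⧸ R) (quoK (actsK_sub hA R) hK.ne) (kq (actsK_sub hA R)) := by
  refine ⟨⟨fun p u v huv => ?_, fun p u v w huv => ?_⟩, fun p u => ?_, fun p x y h1 h2 h3 => ?_⟩
  · obtain ⟨g, rfl⟩ := QuotientGroup.mk_surjective p
    obtain ⟨x, y, h, rfl, rfl⟩ := huv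
    exact ⟨g • x, g • y, hA.acts.1 g _ _ h, rfl, rfl⟩
  · obtain ⟨g, rfl⟩ := QuotientGroup.mk_surjective p
    obtain ⟨x, y, z, h, rfl, rfl, rfl⟩ := huv
    exact ⟨g • x, g • y, g • z, hA.acts.2 g _ _ _ h, rfl, rfl, rfl⟩
  · obtain ⟨g, rfl⟩ := QuotientGroup.mk_surjective p
    obtain ⟨x, rfl⟩ := Quotient.exists_rep u
    exact hA.inv g x
  · obtain ⟨g, rfl⟩ := QuotientGroup.mk_surjective p
    obtain ⟨x', rfl⟩ := Quotient.exists_rep x
    obtain ⟨y', h4, rfl⟩ := up_adj (actsK_sub hA R) hK h1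
    obtain ⟨z', h5, h6⟩ := up_adj (actsK_sub hA R) hK h2
    have h7 : (qv (g • y') : QV R V) = qv z' := h6.symm
    obtain ⟨s, rfl⟩ := (qv_eq R).1 h7
    have h8 : (s.1 * g) • y' = y' := hA.typ (s.1 * g) x' y' h4 (by
      rw [mul_smul]
      exact h5) h3
    change (qv (g • y') : QV R V) = qv y'
    rw [h7]
    congr 1
    rw [mul_smul] at h8
    exact h8

end quoact

/-- Cocompact actions with a homomorphism to the integers which is injective on the
stabilizers. -/
theorem int_memK {C : ∀ (G : Type) [Group G], Prop} (hE : ExtClass C) (hC : CatClass C)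
    (hK : Kt X k) (hX : X.SimplyConn) (hA : ActsK G X k) (hco : X.Cocompact G)
    (f : G →* Multiplicative ℤ)
    (hf : ∀ (v : V) (g : G), g • v = v → f g = 1 → g = 1) : C G := by
  obtain ⟨κ₁, hκ₁, hdiv⟩ := exists_dvd hco f hf
  obtain ⟨M, hM⟩ := exists_boundN hA.acts hco f 10
  have hf' : ∀ (v : V) (g : G), g • v = v → vl f g = 0 → g = 1 := fun v g h1 h2 =>
    hf v g h1 ((vl_eq_zero f).1 h2)
  obtain ⟨n, hn⟩ : ∃ n : ℕ, n = κ₁.natAbs * (M + 1) := ⟨_, rfl⟩
  have hn0 : n ≠ 0 := by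
    rw [hn]
    exact Nat.mul_ne_zero (Int.natAbs_ne_zero.2 hκ₁) (Nat.succ_ne_zero _)
  have hκn : κ₁ ∣ (n : ℤ) := by
    rw [hn, Nat.cast_mul, Int.natCast_natAbs]
    exact (dvd_abs _ _).2 dvd_rfl |>.mul_right _
  have hMn : M < n := by
    rw [hn]
    have : 1 ≤ κ₁.natAbs := Nat.one_le_iff_ne_zero.2 (Int.natAbs_ne_zero.2 hκ₁)
    nlinarith
  have hfi := dv_finiteIndex f n hn0
  refine hC.finiteIndex G (dv f n) hfi ?_
  obtain ⟨H, hH⟩ : ∃ H : Subgroup G, H = dv f n := ⟨_, rfl⟩
  rw [← hH] at hfi ⊢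
  have hmem : ∀ g : H, (n : ℤ) ∣ vl f g.1 := fun g => mem_dv.1 (hH ▸ g.2)
  have hA' : ActsK H X k := actsK_sub hA H
  -- the subgroup `R`
  have hN : NiceK X k (RR0 V H) := by
    refine ⟨actsK_sub hA' _, hK, ?_, ?_⟩
    · rintro x y hxy ⟨s, hs1, hs2, hs3⟩ r hr
      obtain ⟨t, ht1, ht2, ht3, ht4⟩ := hdiv x y hxy ⟨s.1.1, fun h => hs1 (Subtype.ext
        (Subtype.ext h)), hs2, hs3⟩
      obtain ⟨m, hm⟩ := (ht4.trans hκn).trans (hmem r.1)
      have h1 : (t ^ m)⁻¹ * r.1.1 = 1 := by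
        refine hf' x _ ?_ ?_
        · have h2 : (t ^ m) • x = x := by
            have : t ∈ MulAction.stabilizer G x := ht1
            exact zpow_mem this m
          rw [mul_smul, inv_smul_eq_iff, h2]
          exact hr
        · rw [vl_mul, vl_inv, vl_zpow, hm]
          ring
      have h2 : r.1.1 = t ^ m := (inv_mul_eq_one.1 h1).symm
      have h3 : t ∈ MulAction.stabilizer G y := ht2
      change r.1.1 • y = y
      rw [h2]
      exact zpow_mem h3 m
    · intro v r hr _ j hj y h1 h2 h3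
      have h4 : ∀ i ≤ j, ¬ Fx G v (y i) := by
        rintro i hi ⟨t, ht1, ht2, ht3⟩
        have h5 : t ^ n ∈ H := by
          rw [hH, mem_dv, ← zpow_natCast, vl_zpow]
          exact dvd_mul_right _ _
        have h6 : (⟨t ^ n, h5⟩ : H) • v = v := by
          have : t ∈ MulAction.stabilizer G v := ht2
          exact pow_mem this n
        refine h2 i hi ⟨⟨⟨t ^ n, h5⟩, mem_RR0 _ v h6⟩, fun h7 => ht1 ?_, h6, ?_⟩
        · have h8 : t ^ n = 1 := congrArg (fun z : RR0 V H => z.1.1) h7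
          have h9 := congrArg (vl f) h8
          rw [← zpow_natCast, vl_zpow, vl_one] at h9
          refine hf' v t ht2 ?_
          rcases mul_eq_zero.1 h9 with h10 | h10
          · exact (hn0 (by exact_mod_cast h10)).elim
          · exact h10
        · have : t ∈ MulAction.stabilizer G (y i) := ht3
          exact pow_mem this n
      have h5 := hM v r.1.1 hr j hj y h1 h4 h3
      have h6 : vl f r.1.1 = 0 := by
        refine Int.eq_zero_of_abs_lt_dvd (hmem r.1) ?_
        rw [Int.abs_eq_natAbs]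
        exact_mod_cast h5.trans_lt hMn
      exact Subtype.ext (Subtype.ext (hf' v _ hr h6))
  have hR : C (RR0 V H) := gen_memK hN hE hX (RR0_gen V H)
    ((f.comp H.subtype).comp (RR0 V H).subtype) hC.int (fun v r h1 h2 =>
      Subtype.ext (Subtype.ext (hf v _ h1 h2)))
  have hP : C (H ⧸ RR0 V H) := by
    refine properK hC (quoK_simplyConn hN.toActsK hN.kt.ne hX (RR0_gen V H)) (quoK_kt hN)
      (quoK_acts (RR0 V H) hA' hK) fun v => ?_
    have hRR : ∀ (h : H) (x : V), h • x = x → h ∈ RR0 V H := fun h x hx => mem_RR0 h x hx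
    have : Subsingleton (MulAction.stabilizer (H ⧸ RR0 V H) v) :=
      ⟨fun a b => Subtype.ext ((quo_free hRR a.1 v a.2).trans (quo_free hRR b.1 v b.2).symm)⟩
    infer_instance
  let p : H →* H ⧸ RR0 V H := QuotientGroup.mk' (RR0 V H)
  have hp : ∀ h : H, p h = 1 ↔ h ∈ RR0 V H := fun h => QuotientGroup.eq_one_iff h
  refine hE.ext H ((H ⧸ RR0 V H) × Multiplicative ℤ) (p.prod (f.comp H.subtype))
    (hC.prod _ _ hP hC.int) ?_
  rintro ⟨p₀, n₀⟩
  by_cases hfin : IsOfFinOrder p₀
  · -- the preimage has a subgroup of finite index in `R`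
    obtain ⟨D, hD⟩ : ∃ D : Subgroup H, D = (Subgroup.zpowers (p₀, n₀)).comap
      (p.prod (f.comp H.subtype)) := ⟨_, rfl⟩
    rw [← hD]
    have hD' : ∀ d ∈ D, (p.prod (f.comp H.subtype)) d ∈ Subgroup.zpowers (p₀, n₀) :=
      fun d hd => by
        rw [hD] at hd
        exact hd
    have hfr : Finite (p.comp D.subtype).range := by
      have h1 : (p.comp D.subtype).range ≤ Subgroup.zpowers p₀ := by
        rintro _ ⟨d, rfl⟩
        obtain ⟨m, hm⟩ := hD' d.1 d.2
        exact ⟨m, congrArg Prod.fst hm⟩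
      have h2 : Finite (Subgroup.zpowers p₀) := finite_zpowers.2 hfin
      exact Finite.of_injective _ (Subgroup.inclusion_injective h1)
    refine hC.finiteIndex D (p.comp D.subtype).ker (Subgroup.finiteIndex_ker _) ?_
    refine hC.inj (H := RR0 V H)
      { toFun := fun d => ⟨d.1.1, (hp _).1 d.2⟩
        map_one' := rfl
        map_mul' := fun _ _ => rfl } ?_ hR
    intro a b hab
    exact Subtype.ext (Subtype.ext (congrArg (fun z : RR0 V H => z.1) hab))
  · -- the preimage acts freely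
    refine properK hC hX hK (actsK_sub hA' _) fun v => ?_
    have key : ∀ d : ((Subgroup.zpowers (p₀, n₀)).comap (p.prod (f.comp H.subtype))),
        d • v = v → d = 1 := by
      intro d hd
      obtain ⟨m, hm⟩ := d.2
      have h1 : p₀ ^ m = p d.1 := congrArg Prod.fst hm
      have h2 : n₀ ^ m = f d.1.1 := congrArg Prod.snd hm
      have h3 : p d.1 = 1 := (hp _).2 (mem_RR0 d.1 v hd)
      rw [h3] at h1
      have h4 : m = 0 := by
        by_contra h5
        exact hfin (isOfFinOrder_iff_zpow_eq_one.2 ⟨m, h5, h1⟩)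
      rw [h4, zpow_zero] at h2
      exact Subtype.ext (Subtype.ext (hf v _ hd h2.symm))
    have : Subsingleton (MulAction.stabilizer
        ((Subgroup.zpowers (p₀, n₀)).comap (p.prod (f.comp H.subtype))) v) :=
      ⟨fun a b => Subtype.ext ((key a.1 a.2).trans (key b.1 b.2).symm)⟩
    infer_instance

end

end Pool.Agent.Helper3.LT
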