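import Pool.Agent.Helper3.LT.Quo

/-!
# Quotients of kite complexes are kite complexes
-/

set_option autoImplicit false

namespace Pool.Agent.Helper3.LT

open Relation Pool.Agent.Helper29.BA Pool.Agent.Helper29.PA Pool.Agent.Helper3.FJ
  Pool.Agent.Helper13.LT Pool.Agent.Helper3.FJ.Cpx

section

variable {V : Type} {X : Cpx V} {k : V → ℕ} {R : Type} [Group R] [MulAction R V]

theorem inc_left {r a x : V} (h : X.tri r a x) (ha : k a = 1) : inc X k a r ∧ inc X k a x :=
  ⟨⟨ha, X.adj_symm _ _ (X.tri_adj _ _ _ h)⟩, ha, adj2 h⟩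

theorem inc_right {r a x : V} (h : X.tri r x a) (ha : k a = 1) : inc X k a r ∧ inc X k a x :=
  ⟨⟨ha, adj3 h⟩, ha, X.adj_symm _ _ (adj2 h)⟩

variable (hN : NiceK X k R)

theorem bool_two {a b c : Bool} (h1 : a ≠ b) (h2 : c ≠ b) : a = c := by
  revert h1 h2
  cases a <;> cases b <;> cases c <;> simp

section flagq

variable {r a x : QV R V} (hr : kap (kq hN.toActsK) r = true)
  (hx : kap (kq hN.toActsK) x = false)
  (har : inc (quoK hN.toActsK hN.kt.ne) (kq hN.toActsK) a r)
  (hax : inc (quoK hN.toActsK hN.kt.ne) (kq hN.toActsK) a x)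
include hr hx har hax

theorem fq1 : (quoK hN.toActsK hN.kt.ne).tri r a x := by
  refine (quoK hN.toActsK hN.kt.ne).tri_flip _ _ _ (flagQ hN.toActsK hN.kt har hax ?_)
  rw [kap_true] at hr
  rw [kap_false] at hx
  rw [hr]
  exact Ne.symm hx

theorem fq2 : (quoK hN.toActsK hN.kt.ne).tri r x a := by
  refine (quoK hN.toActsK hN.kt.ne).tri_rot _ _ _ (flagQ hN.toActsK hN.kt har hax ?_)
  rw [kap_true] at hr
  rw [kap_false] at hx
  rw [hr]
  exact Ne.symm hx

end flagq

/-- `one` at the chambers. -/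
theorem one_ch {p q v x y : QV R V} (hpq : p ≠ q)
    (hp : inc (quoK hN.toActsK hN.kt.ne) (kq hN.toActsK) p v)
    (hq : inc (quoK hN.toActsK hN.kt.ne) (kq hN.toActsK) q v)
    (hv : kap (kq hN.toActsK) v = false) (hx : kap (kq hN.toActsK) x = true)
    (hy : kap (kq hN.toActsK) y = true)
    (hpx : inc (quoK hN.toActsK hN.kt.ne) (kq hN.toActsK) p x)
    (hqx : inc (quoK hN.toActsK hN.kt.ne) (kq hN.toActsK) q x)
    (hpy : inc (quoK hN.toActsK hN.kt.ne) (kq hN.toActsK) p y)
    (hqy : inc (quoK hN.toActsK hN.kt.ne) (kq hN.toActsK) q y) : x = y := by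
  have hA := hN.toActsK
  have hK := hN.kt
  obtain ⟨v', rfl⟩ := Quotient.exists_rep v
  obtain ⟨p', hp', rfl⟩ := up_p hA hK hp
  obtain ⟨q', hq', rfl⟩ := up_p hA hK hq
  obtain ⟨x1, hx1, rfl⟩ := up_v hA hK hpx
  obtain ⟨x2, hx2, hx3⟩ := up_v hA hK hqx
  obtain ⟨y1, hy1, rfl⟩ := up_v hA hK hpy
  obtain ⟨y2, hy2, hy3⟩ := up_v hA hK hqy
  have e1 : x1 = x2 := ch_r hA hK hv hp' hq' hx1 hx2 hx hx3.symm
  have e2 : y1 = y2 := ch_r hA hK hv hp' hq' hy1 hy2 hy hy3.symm
  subst e1
  subst e2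
  have h1 : kap k v' = false := hv
  have h2 : kap k x1 = true := hx
  have h3 : kap k y1 = true := hy
  rw [hK.kc.one p' q' v' x1 y1 (fun h => hpq (congrArg _ h)) hp' hq' (by rw [h1, h2]; simp)
    (by rw [h1, h3]; simp) hx1 hx2 hy1 hy2]

/-- `le_two`. -/
theorem le_two_ch {p q s v x : QV R V} (hv : kap (kq hN.toActsK) v = false)
    (hx : kap (kq hN.toActsK) x = true)
    (hp : inc (quoK hN.toActsK hN.kt.ne) (kq hN.toActsK) p v)
    (hpx : inc (quoK hN.toActsK hN.kt.ne) (kq hN.toActsK) p x)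
    (hq : inc (quoK hN.toActsK hN.kt.ne) (kq hN.toActsK) q v)
    (hqx : inc (quoK hN.toActsK hN.kt.ne) (kq hN.toActsK) q x)
    (hs : inc (quoK hN.toActsK hN.kt.ne) (kq hN.toActsK) s v)
    (hsx : inc (quoK hN.toActsK hN.kt.ne) (kq hN.toActsK) s x) : p = q ∨ p = s ∨ q = s := by
  have hA := hN.toActsK
  have hK := hN.kt
  obtain ⟨v', rfl⟩ := Quotient.exists_rep v
  obtain ⟨p', hp', rfl⟩ := up_p hA hK hp
  obtain ⟨q', hq', rfl⟩ := up_p hA hK hq
  obtain ⟨s', hs', rfl⟩ := up_p hA hK hs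
  obtain ⟨x1, hx1, rfl⟩ := up_v hA hK hpx
  obtain ⟨x2, hx2, hx3⟩ := up_v hA hK hqx
  obtain ⟨x4, hx4, hx5⟩ := up_v hA hK hsx
  have e1 : x1 = x2 := ch_r hA hK hv hp' hq' hx1 hx2 hx hx3.symm
  have e2 : x1 = x4 := ch_r hA hK hv hp' hs' hx1 hx4 hx hx5.symm
  subst e1
  subst e2
  have h1 : kap k v' = false := hv
  have h2 : kap k x1 = true := hx
  rcases hK.kc.le_two p' q' s' v' x1 (by rw [h1, h2]; simp) hp' hx1 hq' hx2 hs' hx4 with
    h | h | h
  · exact Or.inl (congrArg _ h)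
  · exact Or.inr (Or.inl (congrArg _ h))
  · exact Or.inr (Or.inr (congrArg _ h))

theorem k_of {x : V} {u : QV R V} (h : qv x = u) : k x = kq hN.toActsK u := by
  rw [← h, kq_mk]

theorem kap_of {x : V} {u : QV R V} (h : qv x = u) : kap k x = kap (kq hN.toActsK) u := by
  rw [← h, kapq]

/-- `one` at the residues. -/
theorem one_re {p q v x y : QV R V} (hpq : p ≠ q)
    (hp : inc (quoK hN.toActsK hN.kt.ne) (kq hN.toActsK) p v)
    (hq : inc (quoK hN.toActsK hN.kt.ne) (kq hN.toActsK) q v)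
    (hv : kap (kq hN.toActsK) v = true) (hx : kap (kq hN.toActsK) x = false)
    (hy : kap (kq hN.toActsK) y = false)
    (hpx : inc (quoK hN.toActsK hN.kt.ne) (kq hN.toActsK) p x)
    (hqx : inc (quoK hN.toActsK hN.kt.ne) (kq hN.toActsK) q x)
    (hpy : inc (quoK hN.toActsK hN.kt.ne) (kq hN.toActsK) p y)
    (hqy : inc (quoK hN.toActsK hN.kt.ne) (kq hN.toActsK) q y) : x = y := by
  have hA := hN.toActsK
  have hK := hN.kt
  obtain ⟨v', rfl⟩ := Quotient.exists_rep v
  obtain ⟨z, hz1, hz2⟩ := closedF hN 3 (by norm_num) v' (kap_true.1 hv) ![p, x, q, y] (by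
    intro i
    fin_cases i
    · exact fq1 hN hv hx hp hpx
    · exact fq2 hN hv hx hq hqx
    · exact fq1 hN hv hy hq hqy
    · exact fq2 hN hv hy hp hpy)
  have k0 : k (z 0) = 1 := (k_of hN (hz2 0)).trans hp.1
  have k2 : k (z 2) = 1 := (k_of hN (hz2 2)).trans hq.1
  have a0 := inc_left (hz1 0) k0
  have a1 := inc_right (hz1 1) k2
  have a2 := inc_left (hz1 2) k2
  have a3 := inc_right (hz1 3) k0
  have h1 : kap k v' = true := hv
  have h2 : kap k (z 1) = false := (kap_of hN (hz2 1)).trans hx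
  have h3 : kap k (z 3) = false := (kap_of hN (hz2 3)).trans hy
  have := hK.kc.one (z 0) (z 2) v' (z 1) (z 3) (fun h => hpq ?_) a0.1 a1.1
    (by rw [h1, h2]; simp) (by rw [h1, h3]; simp) a0.2 a1.2 a3.2 a2.2
  · have h4 := hz2 1
    rw [this] at h4
    exact h4.symm.trans (hz2 3)
  · exact (hz2 0).symm.trans ((congrArg _ h).trans (hz2 2))

/-- The quotient is a kite complex. -/
theorem quoK_kt : Kt (quoK hN.toActsK hN.kt.ne) (kq hN.toActsK) := by
  have hA := hN.toActsK
  have hK := hN.kt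
  refine ⟨?_, ?_, ?_, ?_, ?_⟩
  · intro v
    obtain ⟨v', rfl⟩ := Quotient.exists_rep v
    exact hK.le v'
  · rintro u v ⟨x, y, h, rfl, rfl⟩
    exact hK.ne _ _ h
  · exact fun p u v => flagQ hA hK
  · rintro u v ⟨x, y, h, rfl, rfl⟩ hu hv
    obtain ⟨p, h1, h2⟩ := hK.diag _ _ h hu hv
    exact ⟨qv p, dn_inc hA hK h1, dn_inc hA hK h2⟩
  · refine ⟨?_, ?_, ?_, ?_, ?_, ?_, ?_⟩
    · intro p v h
      obtain ⟨v', rfl⟩ := Quotient.exists_rep v
      obtain ⟨p', h1, rfl⟩ := up_p hA hK h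
      obtain ⟨u, h2, h3⟩ := hK.kc.opp _ _ h1
      exact ⟨qv u, dn_inc hA hK h2, h3⟩
    · intro p u v h1 h2 h3
      obtain ⟨p', rfl⟩ := Quotient.exists_rep p
      obtain ⟨u', a1, rfl⟩ := up_v hA hK h1
      obtain ⟨v', a2, rfl⟩ := up_v hA hK h2
      obtain ⟨q, b1, b2, b3⟩ := hK.kc.two p' u' v' a1 a2 h3
      refine ⟨qv q, fun h => b1 ?_, dn_inc hA hK b2, dn_inc hA hK b3⟩
      by_cases hc : kap k u' = false
      · exact ch_p hA hK hc b2 a1 h
      · refine ch_p hA hK (c := v') ?_ b3 a2 h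
        have h4 : kap k u' ≠ kap k v' := h3
        revert h4 hc
        cases kap k u' <;> cases kap k v' <;> simp
    · intro p q s u v h1 h2 h3 h4 h5 h6 h7
      by_cases hc : kap (kq hN.toActsK) u = false
      · refine le_two_ch hN hc (x := v) ?_ h2 h3 h4 h5 h6 h7
        revert h1 hc
        cases kap (kq hN.toActsK) u <;> cases kap (kq hN.toActsK) v <;> simp
      · refine le_two_ch hN (v := v) (x := u) ?_ ?_ h3 h2 h5 h4 h7 h6
        · revert h1 hc
          cases kap (kq hN.toActsK) u <;> cases kap (kq hN.toActsK) v <;> simp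
        · revert hc
          cases kap (kq hN.toActsK) u <;> simp
    · intro p q v x y h1 h2 h3 h4 h5 h6 h7 h8 h9
      by_cases hc : kap (kq hN.toActsK) v = false
      · refine one_ch hN h1 h2 h3 hc ?_ ?_ h6 h7 h8 h9
        · revert h4 hc
          cases kap (kq hN.toActsK) x <;> cases kap (kq hN.toActsK) v <;> simp
        · revert h5 hc
          cases kap (kq hN.toActsK) y <;> cases kap (kq hN.toActsK) v <;> simp
      · refine one_re hN h1 h2 h3 ?_ ?_ ?_ h6 h7 h8 h9
        · revert hc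
          cases kap (kq hN.toActsK) v <;> simp
        · revert h4 hc
          cases kap (kq hN.toActsK) x <;> cases kap (kq hN.toActsK) v <;> simp
        · revert h5 hc
          cases kap (kq hN.toActsK) y <;> cases kap (kq hN.toActsK) v <;> simp
    · intro r a b c x y z hr hx hy hz ar br cr ax bx by' cy cz az hab hbc hca
      obtain ⟨r', rfl⟩ := Quotient.exists_rep r
      obtain ⟨w, hw1, hw2⟩ := closedF hN 5 (by norm_num) r' (kap_true.1 hr)
        ![a, x, b, y, c, z] (by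
        intro i
        fin_cases i
        · exact fq1 hN hr hx ar ax
        · exact fq2 hN hr hx br bx
        · exact fq1 hN hr hy br by'
        · exact fq2 hN hr hy cr cy
        · exact fq1 hN hr hz cr cz
        · exact fq2 hN hr hz ar az)
      have k0 : k (w 0) = 1 := (k_of hN (hw2 0)).trans ar.1
      have k2 : k (w 2) = 1 := (k_of hN (hw2 2)).trans br.1
      have k4 : k (w 4) = 1 := (k_of hN (hw2 4)).trans cr.1
      have a0 := inc_left (hw1 0) k0
      have a1 := inc_right (hw1 1) k2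
      have a2 := inc_left (hw1 2) k2
      have a3 := inc_right (hw1 3) k4
      have a4 := inc_left (hw1 4) k4
      have a5 := inc_right (hw1 5) k0
      exact hK.kc.n3 r' (w 0) (w 2) (w 4) (w 1) (w 3) (w 5) hr ((kap_of hN (hw2 1)).trans hx)
        ((kap_of hN (hw2 3)).trans hy) ((kap_of hN (hw2 5)).trans hz) a0.1 a1.1 a3.1
        a0.2 a1.2 a2.2 a3.2 a4.2 a5.2
        (fun h => hab ((hw2 0).symm.trans ((congrArg _ h).trans (hw2 2))))
        (fun h => hbc ((hw2 2).symm.trans ((congrArg _ h).trans (hw2 4))))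
        (fun h => hca ((hw2 4).symm.trans ((congrArg _ h).trans (hw2 0))))
    · intro r a b c d x y z t hr hx hy hz ht ar br cr dr ax bx by' cy cz dz dt' at' hab hbc hcd hda
      obtain ⟨r', rfl⟩ := Quotient.exists_rep r
      obtain ⟨w, hw1, hw2⟩ := closedF hN 7 (by norm_num) r' (kap_true.1 hr)
        ![a, x, b, y, c, z, d, t] (by
        intro i
        fin_cases i
        · exact fq1 hN hr hx ar ax
        · exact fq2 hN hr hx br bx
        · exact fq1 hN hr hy br by'
        · exact fq2 hN hr hy cr cy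
        · exact fq1 hN hr hz cr cz
        · exact fq2 hN hr hz dr dz
        · exact fq1 hN hr ht dr dt'
        · exact fq2 hN hr ht ar at')
      have k0 : k (w 0) = 1 := (k_of hN (hw2 0)).trans ar.1
      have k2 : k (w 2) = 1 := (k_of hN (hw2 2)).trans br.1
      have k4 : k (w 4) = 1 := (k_of hN (hw2 4)).trans cr.1
      have k6 : k (w 6) = 1 := (k_of hN (hw2 6)).trans dr.1
      have a0 := inc_left (hw1 0) k0
      have a1 := inc_right (hw1 1) k2
      have a2 := inc_left (hw1 2) k2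
      have a3 := inc_right (hw1 3) k4
      have a4 := inc_left (hw1 4) k4
      have a5 := inc_right (hw1 5) k6
      have a6 := inc_left (hw1 6) k6
      have a7 := inc_right (hw1 7) k0
      rcases hK.kc.n4 r' (w 0) (w 2) (w 4) (w 6) (w 1) (w 3) (w 5) (w 7) hr
        ((kap_of hN (hw2 1)).trans hx)
        ((kap_of hN (hw2 3)).trans hy) ((kap_of hN (hw2 5)).trans hz)
        ((kap_of hN (hw2 7)).trans ht) a0.1 a1.1 a3.1 a5.1
        a0.2 a1.2 a2.2 a3.2 a4.2 a5.2 a6.2 a7.2
        (fun h => hab ((hw2 0).symm.trans ((congrArg _ h).trans (hw2 2))))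
        (fun h => hbc ((hw2 2).symm.trans ((congrArg _ h).trans (hw2 4))))
        (fun h => hcd ((hw2 4).symm.trans ((congrArg _ h).trans (hw2 6))))
        (fun h => hda ((hw2 6).symm.trans ((congrArg _ h).trans (hw2 0)))) with h | h
      · exact Or.inl ((hw2 0).symm.trans ((congrArg _ h).trans (hw2 4)))
      · exact Or.inr ((hw2 2).symm.trans ((congrArg _ h).trans (hw2 6)))
    · intro r a b c d e x y z t s hr hx hy hz ht hs ar br cr dr er ax bx by' cy cz dz dt' et es as
        hab hbc hcd hde hea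
      obtain ⟨r', rfl⟩ := Quotient.exists_rep r
      obtain ⟨w, hw1, hw2⟩ := closedF hN 9 (by norm_num) r' (kap_true.1 hr)
        ![a, x, b, y, c, z, d, t, e, s] (by
        intro i
        fin_cases i
        · exact fq1 hN hr hx ar ax
        · exact fq2 hN hr hx br bx
        · exact fq1 hN hr hy br by'
        · exact fq2 hN hr hy cr cy
        · exact fq1 hN hr hz cr cz
        · exact fq2 hN hr hz dr dz
        · exact fq1 hN hr ht dr dt'
        · exact fq2 hN hr ht er et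
        · exact fq1 hN hr hs er es
        · exact fq2 hN hr hs ar as)
      have k0 : k (w 0) = 1 := (k_of hN (hw2 0)).trans ar.1
      have k2 : k (w 2) = 1 := (k_of hN (hw2 2)).trans br.1
      have k4 : k (w 4) = 1 := (k_of hN (hw2 4)).trans cr.1
      have k6 : k (w 6) = 1 := (k_of hN (hw2 6)).trans dr.1
      have k8 : k (w 8) = 1 := (k_of hN (hw2 8)).trans er.1
      have a0 := inc_left (hw1 0) k0
      have a1 := inc_right (hw1 1) k2
      have a2 := inc_left (hw1 2) k2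
      have a3 := inc_right (hw1 3) k4
      have a4 := inc_left (hw1 4) k4
      have a5 := inc_right (hw1 5) k6
      have a6 := inc_left (hw1 6) k6
      have a7 := inc_right (hw1 7) k8
      have a8 := inc_left (hw1 8) k8
      have a9 := inc_right (hw1 9) k0
      exact hK.kc.n5 r' (w 0) (w 2) (w 4) (w 6) (w 8) (w 1) (w 3) (w 5) (w 7) (w 9) hr
        ((kap_of hN (hw2 1)).trans hx)
        ((kap_of hN (hw2 3)).trans hy) ((kap_of hN (hw2 5)).trans hz)
        ((kap_of hN (hw2 7)).trans ht) ((kap_of hN (hw2 9)).trans hs) a0.1 a1.1 a3.1 a5.1 a7.1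
        a0.2 a1.2 a2.2 a3.2 a4.2 a5.2 a6.2 a7.2 a8.2 a9.2
        (fun h => hab ((hw2 0).symm.trans ((congrArg _ h).trans (hw2 2))))
        (fun h => hbc ((hw2 2).symm.trans ((congrArg _ h).trans (hw2 4))))
        (fun h => hcd ((hw2 4).symm.trans ((congrArg _ h).trans (hw2 6))))
        (fun h => hde ((hw2 6).symm.trans ((congrArg _ h).trans (hw2 8))))
        (fun h => hea ((hw2 8).symm.trans ((congrArg _ h).trans (hw2 0))))

/-! ### Fixed panels and vertices -/

/-- The lifts are fixed by nontrivial elements. -/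
def FX (u : QV R V) : Prop := ∃ x : V, qv x = u ∧ ∃ r : R, r ≠ 1 ∧ r • x = x

theorem FX.any {u : QV R V} (h : FX u) {x : V} (hx : qv x = u) : ∃ r : R, r ≠ 1 ∧ r • x = x := by
  obtain ⟨y, h1, r, h2, h3⟩ := h
  obtain ⟨g, hg⟩ := (qv_eq R).1 (h1.trans hx.symm)
  refine ⟨g * r * g⁻¹, fun h => h2 ?_, ?_⟩
  · have : r = g⁻¹ * (g * r * g⁻¹) * g := by group
    rw [this, h]
    group
  · rw [← hg, mul_smul, inv_smul_smul, mul_smul, h3]

theorem FX.mk {x : V} {r : R} (h1 : r ≠ 1) (h2 : r • x = x) : FX (qv x : QV R V) :=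
  ⟨x, rfl, r, h1, h2⟩

include hN in
/-- Elements which fix a vertex fix the adjacent vertices of higher rank. -/
theorem fix_up {x y : V} (h : X.adj x y) (hk : k x < k y) {r : R} (hr : r • x = x) :
    r • y = y := by
  refine hN.typ r x y h ?_ hk
  have := hN.acts.1 r _ _ h
  rwa [hr] at this

include hN in
theorem fix_ch {p c : V} (h : inc X k p c) (hc : kap k c = false) {r : R} (hr : r • c = c) :
    r • p = p := by
  have h4 := inc_ne hN.kt h
  have h5 := hN.kt.le c
  rw [kap_false] at hc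
  refine fix_up hN (X.adj_symm _ _ h.2) ?_ hr
  rw [h.1]
  omega

include hN in
theorem fix_pa {p v : V} (h : inc X k p v) (hv : kap k v = true) {r : R} (hr : r • p = p) :
    r • v = v := by
  rw [kap_true] at hv
  exact fix_up hN h.2 (by rw [h.1, hv]; norm_num) hr

include hN in
/-- If two panels of a kite are fixed then so is the chamber. -/
theorem fix_near {v c p q : V} (hv : kap k v = true) (hc : kap k c = false) (hpq : p ≠ q)
    (hpv : inc X k p v) (hqv : inc X k q v) (hpc : inc X k p c) (hqc : inc X k q c) {r : R}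
    (hp : r • p = p) (hq : r • q = q) : r • c = c := by
  have h1 : inc X k p (r • c) := ⟨hpc.1, by
    have := hN.acts.1 r _ _ hpc.2
    rwa [hp] at this⟩
  have h2 : inc X k q (r • c) := ⟨hqc.1, by
    have := hN.acts.1 r _ _ hqc.2
    rwa [hq] at this⟩
  have h3 : kap k (r • c) = kap k c := by
    rw [kap, kap, hN.inv]
  exact hN.kt.kc.one p q v (r • c) c hpq hpv hqv (by rw [h3, hc, hv]; simp)
    (by rw [hc, hv]; simp) h1 h2 hpc hqc

theorem quoK_fxd : Fxd (inc (quoK hN.toActsK hN.kt.ne) (kq hN.toActsK)) (kap (kq hN.toActsK))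
    (FX (V := V) (R := R)) FX := by
  have hA := hN.toActsK
  have hK := hN.kt
  refine ⟨?_, ?_, ?_, ?_⟩
  · intro p v h1 h2 h3
    obtain ⟨p', rfl⟩ := Quotient.exists_rep p
    obtain ⟨v', a1, rfl⟩ := up_v hA hK h1
    obtain ⟨r, hr1, hr2⟩ := h3.any rfl
    exact FX.mk hr1 (fix_pa hN a1 h2 hr2)
  · intro p v h1 h2 h3
    obtain ⟨v', rfl⟩ := Quotient.exists_rep v
    obtain ⟨p', a1, rfl⟩ := up_p hA hK h1
    obtain ⟨r, hr1, hr2⟩ := h3.any rfl
    exact FX.mk hr1 (fix_ch hN a1 h2 hr2)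
  · intro v c p q hv hc hpq hpv hqv hpc hqc hp hq
    obtain ⟨c', rfl⟩ := Quotient.exists_rep c
    obtain ⟨p', v', a1, a2, rfl, rfl⟩ := up_pv hA hK hpc hpv
    obtain ⟨q', v1, a3, a4, rfl, h5⟩ := up_pv hA hK hqc hqv
    have e1 : v' = v1 := ch_r hA hK hc a1 a3 a2 a4 hv h5.symm
    subst e1
    obtain ⟨r, hr1, hr2⟩ := hp.any rfl
    obtain ⟨s, hs1, hs2⟩ := hq.any rfl
    have hv1 := fix_pa hN a2 hv hr2
    have hv2 := fix_pa hN a4 hv hs2
    have hq1 := hN.rigid _ _ (X.adj_symm _ _ a4.2) ⟨s, hs1, hv2, hs2⟩ r hv1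
    exact FX.mk hr1 (fix_near hN hv hc (fun h => hpq (congrArg _ h)) a2 a4 a1 a3 hr2 hq1)
  · intro v c d p m q hv hc hd hpq hpv hmv hqv hpc hmc hmd hqd hp hq
    obtain ⟨m', rfl⟩ := Quotient.exists_rep m
    obtain ⟨v', b1, rfl⟩ := up_v hA hK hmv
    obtain ⟨c', b2, rfl⟩ := up_v hA hK hmc
    obtain ⟨d', b3, rfl⟩ := up_v hA hK hmd
    obtain ⟨p', v1, a1, a2, rfl, h5⟩ := up_pv hA hK hpc hpv
    have e1 : v1 = v' := ch_r hA hK hc a1 b2 a2 b1
      ((kap_of hN h5).trans hv) h5
    subst e1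
    obtain ⟨q', v2, a3, a4, rfl, h6⟩ := up_pv hA hK hqd hqv
    have e2 : v2 = v1 := ch_r hA hK hd a3 b3 a4 b1
      ((kap_of hN h6).trans hv) h6
    subst e2
    obtain ⟨r, hr1, hr2⟩ := hp.any rfl
    obtain ⟨s, hs1, hs2⟩ := hq.any rfl
    have hv1 := fix_pa hN a2 hv hr2
    have hv2 := fix_pa hN a4 hv hs2
    have hq1 := hN.rigid _ _ (X.adj_symm _ _ a4.2) ⟨s, hs1, hv2, hs2⟩ r hv1
    by_cases h7 : p' = m'
    · rw [← h7]
      exact hp
    by_cases h8 : q' = m'
    · rw [← h8]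
      exact hq
    have kap_r : ∀ x : V, kap k (r • x) = kap k x := fun x => by
      rw [kap, kap, hN.inv]
    have sm : ∀ {x y : V}, inc X k x y → inc X k (r • x) (r • y) := fun {x y} h =>
      ⟨(hN.inv r x).trans h.1, hN.acts.1 r _ _ h.2⟩
    have c1 := sm b1
    have c2 := sm b2
    have c3 := sm b3
    have c4 := sm a1
    have c5 := sm a3
    rw [hv1] at c1
    rw [hr2] at c4
    rw [hq1] at c5
    have n3 : q' ≠ r • m' := fun h => by
      rw [← hq1] at h
      exact h8 (smul_left_cancel r h)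
    have n4 : r • m' ≠ p' := fun h => by
      rw [← hr2] at h
      exact h7 (smul_left_cancel r h).symm
    rcases hK.kc.n4 v2 p' m' q' (r • m') c' d' (r • d') (r • c') hv hc hd
      ((kap_r d').trans hd) ((kap_r c').trans hc) a2 b1 a4 c1 a1 b2 b3 a3 c5 c3 c2 c4 h7
      (Ne.symm h8) n3 n4 with h9 | h9
    · exact (hpq (congrArg _ h9)).elim
    · exact FX.mk hr1 h9.symm

end

end Pool.Agent.Helper3.LT
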