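import Pool.Agent.Helper3.LT.Sc

/-!
# Collapsing a simply connected kite complex to a tree
-/

set_option autoImplicit false

namespace Pool.Agent.Helper3.LT

open Relation Pool.Agent.Helper29.BA Pool.Agent.Helper29.PA Pool.Agent.Helper3.FJ
  Pool.Agent.Helper13.LT Pool.Agent.Helper3.FJ.Cpx

section

variable {V : Type} {X : Cpx V} {k : V → ℕ}

section ext

variable (X k) (T : V → V → Prop) (r : V × V → V × V → Prop) (E : V → V → V → Prop)
  (hwf : WellFounded r) {H : Type} [Group H] (c : V → V → H)

open Classical in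
/-- The extension of the edge function. -/
noncomputable def exk : V × V → H := hwf.fix fun p rec =>
  if T p.1 p.2 then c p.1 p.2
  else if h : ∃ s : V × V, E p.1 p.2 s.1 ∧ s.2 ≠ p.2 ∧ inc X k s.2 p.1 ∧ inc X k s.2 s.1 then
    (if h1 : r (p.1, h.choose.2) p then rec _ h1 else c p.1 h.choose.2) *
      (if h2 : r (h.choose.1, h.choose.2) p then rec _ h2 else c h.choose.1 h.choose.2)⁻¹ *
      (if h3 : r (h.choose.1, p.2) p then rec _ h3 else c h.choose.1 p.2)
  else 1

theorem exk_T {x y : V} (h : T x y) : exk X k T r E hwf c (x, y) = c x y := by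
  rw [exk, hwf.fix_eq, if_pos h]

theorem exk_E (hK : Kt X k)
    (hinc : ∀ v x w, E v x w → inc X k x v ∧ inc X k x w ∧ kap k v ≠ kap k w)
    (hn : ∀ v x w, E v x w → ¬ T v x)
    (hu : ∀ v x w w', E v x w → E v x w' → w = w')
    (hl : ∀ v x w y, E v x w → y ≠ x → inc X k y v → inc X k y w →
      (T w x ∨ r (w, x) (v, x)) ∧ (T v y ∨ r (v, y) (v, x)) ∧ (T w y ∨ r (w, y) (v, x)))
    {v x w y : V} (h : E v x w) (hy : y ≠ x) (hyv : inc X k y v) (hyw : inc X k y w) :
    exk X k T r E hwf c (v, x) = exk X k T r E hwf c (v, y) *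
      (exk X k T r E hwf c (w, y))⁻¹ * exk X k T r E hwf c (w, x) := by
  have hex : ∃ s : V × V, E (v, x).1 (v, x).2 s.1 ∧ s.2 ≠ (v, x).2 ∧ inc X k s.2 (v, x).1 ∧
    inc X k s.2 s.1 := ⟨(w, y), h, hy, hyv, hyw⟩
  have hs := hex.choose_spec
  have e1 : hex.choose.1 = w := hu _ _ _ _ hs.1 h
  have e2 : hex.choose.2 = y := by
    obtain ⟨i1, i2, i3⟩ := hinc _ _ _ h
    have h4 := hs.2.2.2
    rw [e1] at h4
    rcases hK.kc.le_two x y hex.choose.2 v w i3 i1 i2 hyv hyw hs.2.2.1 h4 with h5 | h5 | h5
    · exact (hy h5.symm).elim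
    · exact (hs.2.1 h5.symm).elim
    · exact h5.symm
  obtain ⟨l1, l2, l3⟩ := hl _ _ _ _ h hy hyv hyw
  have e3 : exk X k T r E hwf c (v, x) = exk X k T r E hwf c (v, hex.choose.2) *
      (exk X k T r E hwf c (hex.choose.1, hex.choose.2))⁻¹ *
        exk X k T r E hwf c (hex.choose.1, x) := by
    conv_lhs => rw [exk, hwf.fix_eq]
    rw [if_neg (hn _ _ _ h), dif_pos hex]
    congr 2
    · split_ifs with h3
      · rfl
      · rw [e2] at h3 ⊢
        exact (exk_T X k T r E hwf c (l2.resolve_right h3)).symm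
    · congr 1
      split_ifs with h3
      · rfl
      · rw [e1, e2] at h3 ⊢
        exact (exk_T X k T r E hwf c (l3.resolve_right h3)).symm
    · split_ifs with h3
      · rfl
      · rw [e1] at h3 ⊢
        exact (exk_T X k T r E hwf c (l1.resolve_right h3)).symm
  rw [e1, e2] at e3
  exact e3

end ext

theorem symT_symm (T : V → V → Prop) (x y : V) : T x y ∨ T y x → T y x ∨ T x y := Or.symm

/-- If each incidence outside `T` has a designated kite, whose other incidences come before it, and
every kite is designated, then `T` is a tree. -/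
theorem collapseK (hK : Kt X k) (hX : X.SimplyConn) (T : V → V → Prop)
    (r : V × V → V × V → Prop) (E : V → V → V → Prop) (hwf : WellFounded r)
    (hT : ∀ v x, T v x → inc X k x v)
    (hinc : ∀ v x w, E v x w → inc X k x v ∧ inc X k x w ∧ kap k v ≠ kap k w)
    (hn : ∀ v x w, E v x w → ¬ T v x) (hex : ∀ v x, inc X k x v → ¬ T v x → ∃ w, E v x w)
    (hu : ∀ v x w w', E v x w → E v x w' → w = w')
    (hl : ∀ v x w y, E v x w → y ≠ x → inc X k y v → inc X k y w →
      (T w x ∨ r (w, x) (v, x)) ∧ (T v y ∨ r (v, y) (v, x)) ∧ (T w y ∨ r (w, y) (v, x)))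
    (hall : ∀ v w x y, kap k v ≠ kap k w → x ≠ y → inc X k x v → inc X k x w → inc X k y v →
      inc X k y w → E v x w ∨ E w x v ∨ E v y w ∨ E w y v)
    (hTa : ∀ x y, T x y ∨ T y x → X.adj x y) :
    (X.gr (fun x y => T x y ∨ T y x) (symT_symm T) hTa).SimplyConn := by
  obtain ⟨hne, hconn, hsc⟩ := hX
  have symm : ∀ {x y : V}, ReflTransGen (fun x y => T x y ∨ T y x) x y →
      ReflTransGen (fun x y => T x y ∨ T y x) y x := by
    intro x y hxy
    induction hxy with
    | refl => exact ReflTransGen.refl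
    | tail _ h4 ih => exact ih.head h4.symm
  have hadj : ∀ p : V × V, inc X k p.2 p.1 →
      ReflTransGen (fun x y => T x y ∨ T y x) p.1 p.2 := by
    intro p
    induction p using hwf.induction with
    | _ p ih =>
      obtain ⟨v, x⟩ := p
      intro hp
      by_cases h : T v x
      · exact ReflTransGen.single (Or.inl h)
      · obtain ⟨w, hw⟩ := hex _ _ hp h
        obtain ⟨i1, i2, i3⟩ := hinc _ _ _ hw
        obtain ⟨y, hy1, hy2, hy3⟩ := hK.kc.two _ _ _ i1 i2 i3
        obtain ⟨l1, l2, l3⟩ := hl _ _ _ _ hw hy1 hy2 hy3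
        have a1 : ReflTransGen (fun x y => T x y ∨ T y x) w x := by
          rcases l1 with h3 | h3
          · exact ReflTransGen.single (Or.inl h3)
          · exact ih _ h3 i2
        have a2 : ReflTransGen (fun x y => T x y ∨ T y x) v y := by
          rcases l2 with h3 | h3
          · exact ReflTransGen.single (Or.inl h3)
          · exact ih _ h3 hy2
        have a3 : ReflTransGen (fun x y => T x y ∨ T y x) w y := by
          rcases l3 with h3 | h3
          · exact ReflTransGen.single (Or.inl h3)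
          · exact ih _ h3 hy3
        exact (a2.trans (symm a3)).trans a1
  have hadj2 : ∀ u v, X.adj u v → ReflTransGen (fun x y => T x y ∨ T y x) u v := by
    intro u v huv
    by_cases hu : k u = 1
    · exact symm (hadj (v, u) ⟨hu, huv⟩)
    by_cases hv : k v = 1
    · exact hadj (u, v) ⟨hv, X.adj_symm _ _ huv⟩
    · obtain ⟨p, h1, h2⟩ := hK.diag _ _ huv hu hv
      exact (hadj (u, p) h1).trans (symm (hadj (v, p) h2))
  refine ⟨hne, fun u v => ?_, fun H _ c hc => ?_⟩
  · have := hconn u v
    induction this with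
    | refl => exact ReflTransGen.refl
    | tail _ h4 ih => exact ih.trans (hadj2 _ _ h4)
  · classical
    obtain ⟨φ, hφ⟩ : ∃ φ : V → V → H, ∀ v x, φ v x = exk X k T r E hwf c (v, x) :=
      ⟨_, fun _ _ => rfl⟩
    have key : ∀ {v x w y : V}, E v x w → y ≠ x → inc X k y v → inc X k y w →
        φ v x * (φ w x)⁻¹ = φ v y * (φ w y)⁻¹ := by
      intro v x w y h hy h1 h2
      have := exk_E X k T r E hwf c hK hinc hn hu hl h hy h1 h2
      rw [← hφ, ← hφ, ← hφ, ← hφ] at this
      rw [this]
      group
    -- the independence of the panel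
    have ind : ∀ u v p q, kap k u ≠ kap k v → inc X k p u → inc X k p v → inc X k q u →
        inc X k q v → φ u p * (φ v p)⁻¹ = φ u q * (φ v q)⁻¹ := by
      intro u v p q huv h1 h2 h3 h4
      by_cases hpq : p = q
      · rw [hpq]
      · rcases hall u v p q huv hpq h1 h2 h3 h4 with h | h | h | h
        · exact key h (Ne.symm hpq) h3 h4
        · have := congrArg (fun z => z⁻¹) (key h (Ne.symm hpq) h4 h3)
          simpa [mul_inv_rev] using this
        · exact (key h hpq h1 h2).symm
        · have := congrArg (fun z => z⁻¹) (key h hpq h2 h1)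
          simpa [mul_inv_rev] using this.symm
    let c' : V → V → H := fun u v => if k v = 1 then φ u v else if k u = 1 then (φ v u)⁻¹
      else if h : ∃ p, inc X k p u ∧ inc X k p v then φ u h.choose * (φ v h.choose)⁻¹ else 1
    have e1 : ∀ u v, inc X k v u → c' u v = φ u v := fun u v h => if_pos h.1
    have e2 : ∀ u v, inc X k u v → c' u v = (φ v u)⁻¹ := fun u v h => by
      simp only [c', if_neg (inc_ne hK h), if_pos h.1]
    have e3 : ∀ u v p, inc X k p u → inc X k p v → kap k u ≠ kap k v →
        c' u v = φ u p * (φ v p)⁻¹ := fun u v p h h' h'' => by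
      have h3 : ∃ p, inc X k p u ∧ inc X k p v := ⟨p, h, h'⟩
      simp only [c', if_neg (inc_ne hK h), if_neg (inc_ne hK h'), dif_pos h3]
      exact ind _ _ _ _ h'' h3.choose_spec.1 h3.choose_spec.2 h h'
    have hcoc : X.Cocycle c' := by
      refine ⟨fun u v h => ?_, ?_⟩
      · by_cases hu' : k u = 1
        · rw [e2 u v ⟨hu', h⟩, e1 v u ⟨hu', h⟩, inv_mul_cancel]
        · by_cases hv : k v = 1
          · rw [e1 u v ⟨hv, X.adj_symm _ _ h⟩, e2 v u ⟨hv, X.adj_symm _ _ h⟩, mul_inv_cancel]
          · obtain ⟨h1, p, h2, h3⟩ := (Ad_iff hK).2 ⟨h, hu', hv⟩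
            rw [e3 u v p h2 h3 h1, e3 v u p h3 h2 h1.symm]
            group
      · have key : ∀ u v w, X.tri u v w → k u = 1 → c' u v * c' v w * c' w u = 1 := by
          intro u v w h hu'
          have h1 : inc X k u v := ⟨hu', X.tri_adj _ _ _ h⟩
          have h2 : inc X k u w := ⟨hu', X.adj_symm _ _ (adj3 h)⟩
          have h3 := hK.ne _ _ (adj2 h)
          have hv := inc_ne hK h1
          have hw := inc_ne hK h2
          rw [e2 u v h1, e1 w u h2, e3 v w u h1 h2 ((kap_ne hK hv hw).2 h3)]
          group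
        intro u v w h
        by_cases hu' : k u = 1
        · exact key u v w h hu'
        by_cases hv : k v = 1
        · have := key v w u (X.tri_rot _ _ _ h) hv
          rw [mul_assoc, mul_eq_one_iff_eq_inv] at this
          rw [this]
          group
        by_cases hw : k w = 1
        · have := key w u v (X.tri_rot _ _ _ (X.tri_rot _ _ _ h)) hw
          rw [mul_assoc, mul_eq_one_iff_eq_inv] at this
          rw [this]
          group
        · exfalso
          have n1 := hK.ne _ _ (X.tri_adj _ _ _ h)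
          have n2 := hK.ne _ _ (adj2 h)
          have n3 := hK.ne _ _ (adj3 h)
          have l1 := hK.le u
          have l2 := hK.le v
          have l3 := hK.le w
          omega
    obtain ⟨g, hg⟩ := hsc H c' hcoc
    have hT' : ∀ u v, T u v → c' u v = c u v := fun u v h => by
      rw [e1 _ _ (hT _ _ h), hφ, exk_T X k T r E hwf c h]
    refine ⟨g, fun u v huv => ?_⟩
    rcases id huv with h | h
    · rw [← hT' _ _ h]
      exact hg _ _ (hTa _ _ huv)
    · have h1 := hg _ _ (hTa _ _ huv)
      have h2 := hcoc.1 _ _ (hTa _ _ huv)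
      have h3 := hc.1 _ _ huv
      rw [hT' _ _ h] at h2
      rw [← h1, eq_inv_of_mul_eq_one_left h2]
      exact eq_inv_of_mul_eq_one_left h3

end

end Pool.Agent.Helper3.LT
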