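import Pool.Agent.Helper3.LT.Quo2

/-!
# Groups generated by elements with fixed points
-/

set_option autoImplicit false

namespace Pool.Agent.Helper3.LT

open Relation Pool.Agent.Helper29.BA Pool.Agent.Helper29.PA Pool.Agent.Helper3.FJ
  Pool.Agent.Helper13.LT Pool.Agent.Helper3.FJ.Cpx

section

variable {V : Type} {X : Cpx V} {k : V → ℕ} {R : Type} [Group R] [MulAction R V]
  (hN : NiceK X k R)

include hN in
/-- Different panels at a kite are in different orbits. -/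
theorem kite_ne {v w x y : V} (hvw : kap k v ≠ kap k w) (h1 : inc X k x v) (h2 : inc X k x w)
    (h3 : inc X k y v) (h4 : inc X k y w) (hxy : y ≠ x) : (qv y : QV R V) ≠ qv x := by
  intro h
  by_cases hc : kap k v = false
  · exact hxy (ch_p hN.toActsK hN.kt hc h3 h1 h)
  · refine hxy (ch_p hN.toActsK hN.kt (c := w) ?_ h4 h2 h)
    revert hvw hc
    cases kap k v <;> cases kap k w <;> simp

/-- A group generated by elements with fixed vertices is in the class. -/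
theorem gen_memK' {C : ∀ (G : Type) [Group G], Prop} (hC : ExtClass C) (hX : X.SimplyConn)
    {T : QV R V → QV R V → Prop} {r : QV R V × QV R V → QV R V × QV R V → Prop}
    {E : QV R V → QV R V → QV R V → Prop}
    (hS : Spn (inc (quoK hN.toActsK hN.kt.ne) (kq hN.toActsK)) (kap (kq hN.toActsK)) FX FX T r E)
    {Q : Type} [Group Q] (f : R →* Q)
    (hQ : C Q) (hf : ∀ (v : V) (r : R), r • v = v → f r = 1 → r = 1) : C R := by
  have hA := hN.toActsK
  have hK := hN.kt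
  have hTa : ∀ x y, ((inc X k y x ∧ T (qv x) (qv y)) ∨ (inc X k x y ∧ T (qv y) (qv x))) →
      X.adj x y := by
    rintro x y (h | h)
    · exact X.adj_symm _ _ h.1.2
    · exact h.1.2
  have hsc := collapseK hK hX (fun v x => inc X k x v ∧ T (qv v) (qv x))
    (InvImage r fun p : V × V => ((qv p.1, qv p.2) : QV R V × QV R V))
    (fun v x w => inc X k x v ∧ inc X k x w ∧ E (qv v) (qv x) (qv w)) (InvImage.wf _ hS.wf)
    (fun v x h => h.1)
    (fun v x w h => ⟨h.1, h.2.1, (hS.E_inc _ _ _ h.2.2).2.2⟩)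
    (fun v x w h h' => hS.not _ _ _ h.2.2 h'.2) ?_ ?_ ?_ ?_ hTa
  · refine tree hC _ hsc (fun _ _ _ h => h) ?_ ?_ fun _ => ⟨Q, _, f, hQ, fun v _ g => hf v g⟩
    · have key : ∀ (g : R) (x y : V), (inc X k y x ∧ T (qv x) (qv y)) →
          (inc X k (g • y) (g • x) ∧ T (qv (g • x)) (qv (g • y))) := by
        rintro g x y ⟨h1, h2⟩
        refine ⟨⟨(hN.inv g y).trans h1.1, hN.acts.1 g _ _ h1.2⟩, ?_⟩
        rw [← (qv_eq R).2 ⟨g, rfl⟩, ← (qv_eq R).2 ⟨g, rfl⟩]
        exact h2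
      rintro g x y (h | h)
      · exact Or.inl (key g x y h)
      · exact Or.inr (key g y x h)
    · intro g x y h h1 h2
      have := hK.ne _ _ (hTa _ _ h)
      rw [← h1, hN.inv] at this
      exact this rfl
  · intro v x h1 h2
    obtain ⟨w, hw⟩ := hS.ex _ _ (dn_inc hA hK h1) (fun h => h2 ⟨h1, h⟩)
    obtain ⟨w', h3, rfl⟩ := up_v hA hK (hS.E_inc _ _ _ hw).2.1
    exact ⟨w', h1, h3, hw⟩
  · -- uniqueness
    rintro v x w w' ⟨h1, h2, h3⟩ ⟨-, h4, h5⟩
    have h6 := hS.un _ _ _ _ h3 h5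
    obtain ⟨-, -, h7⟩ := hS.E_inc _ _ _ h3
    by_cases hw : kap k w = true
    · exact pa_r hA h2 h4 hw h6
    have hw0 : kap k w = false := by
      revert hw
      cases kap k w <;> simp
    obtain ⟨s, rfl⟩ := (qv_eq R).1 h6
    have h8 : kap k (s • w) = false := by
      rw [kap, hN.inv]
      exact hw0
    have h9 : s • x = x := by
      have h10 : inc X k (s • x) (s • w) := ⟨(hN.inv s x).trans h2.1, hN.acts.1 s _ _ h2.2⟩
      exact ch_p hA hK h8 h10 h4 ((qv_eq R).2 ⟨s, rfl⟩).symm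
    by_cases hs : s = 1
    · rw [hs, one_smul]
    · obtain ⟨t, ht1, ht2⟩ := (hS.fix _ _ _ h3 (FX.mk hs h9)).any rfl
      have ht3 := fix_ch hN h2 hw0 ht2
      exact (hN.rigid _ _ h2.2 ⟨t, ht1, ht3, ht2⟩ s h9).symm
  · rintro v x w y ⟨h1, h2, h3⟩ h4 h5 h6
    obtain ⟨-, -, h7⟩ := hS.E_inc _ _ _ h3
    obtain ⟨l1, l2, l3⟩ := hS.lower _ _ _ _ h3 (kite_ne hN h7 h1 h2 h5 h6 h4)
      (dn_inc hA hK h5) (dn_inc hA hK h6)
    exact ⟨l1.imp (fun h => ⟨h2, h⟩) id, l2.imp (fun h => ⟨h5, h⟩) id,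
      l3.imp (fun h => ⟨h6, h⟩) id⟩
  · intro v w x y h1 h2 h3 h4 h5 h6
    rcases hS.all (qv v) (qv w) (qv x) (qv y) h1
      (kite_ne hN h1 h5 h6 h3 h4 h2) (dn_inc hA hK h3) (dn_inc hA hK h4)
      (dn_inc hA hK h5) (dn_inc hA hK h6) with h | h | h | h
    · exact Or.inl ⟨h3, h4, h⟩
    · exact Or.inr (Or.inl ⟨h4, h3, h⟩)
    · exact Or.inr (Or.inr (Or.inl ⟨h5, h6, h⟩))
    · exact Or.inr (Or.inr (Or.inr ⟨h6, h5, h⟩))

end

end Pool.Agent.Helper3.LT
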