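import Pool.Agent.Helper3.LT.Gen
import Pool.Agent.Helper9.LT.NF5
import Pool.Agent.Helper13.LT.Span2
import Pool.Agent.Helper63.LT.LocP

/-!
# Groups generated by elements with fixed points
-/

set_option autoImplicit false

namespace Pool.Agent.Helper3.LT

open Relation Pool.Agent.Helper29.BA Pool.Agent.Helper29.PA Pool.Agent.Helper3.FJ
  Pool.Agent.Helper13.LT Pool.Agent.Helper3.FJ.Cpx

section

variable {V : Type} {X : Cpx V} {k : V → ℕ} {R : Type} [Group R] [MulAction R V]

/-- A group generated by elements with fixed vertices is in the class. -/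
theorem gen_memK (hN : NiceK X k R) {C : ∀ (G : Type) [Group G], Prop} (hC : ExtClass C)
    (hX : X.SimplyConn) (hR : Subgroup.closure {r : R | ∃ x : V, r • x = x} = ⊤)
    {Q : Type} [Group Q] (f : R →* Q)
    (hQ : C Q) (hf : ∀ (v : V) (r : R), r • v = v → f r = 1 → r = 1) : C R := by
  by_cases h : ∃ v : V, k v ≠ 1
  · obtain ⟨v₀, hv₀⟩ := h
    have hK := quoK_kt hN
    have hS := Kt_sc hK (quoK_simplyConn hN.toActsK hN.kt.ne hX hR) (v₀ := qv v₀) hv₀
    obtain ⟨ℓ, gt, hL⟩ := Pool.Agent.Helper9.LT.exists_lev hK.kc hS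
    obtain ⟨T, r, E, hE⟩ := exists_spn' hK.kc hL (loc hK.kc hL) (quoK_fxd hN)
    exact gen_memK' hN hC hX hE f hQ hf
  · push Not at h
    obtain ⟨⟨v₀⟩, hconn, -⟩ := hX
    have h1 : ∀ v, v = v₀ := by
      intro v
      have := hconn v₀ v
      induction this with
      | refl => rfl
      | @tail b c _ h4 ih => exact (hN.kt.ne _ _ h4 ((h b).trans (h c).symm)).elim
    refine hC.inj f ?_ hQ
    rw [injective_iff_map_eq_one]
    exact fun r hr => hf v₀ r (h1 _) hr

end

end Pool.Agent.Helper3.LT
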