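import Pool.Agent.Helper3.LT.Col

/-!
# Quotients of kite complexes
-/

set_option autoImplicit false

namespace Pool.Agent.Helper3.LT

open Relation Pool.Agent.Helper29.BA Pool.Agent.Helper29.PA Pool.Agent.Helper3.FJ
  Pool.Agent.Helper13.LT Pool.Agent.Helper3.FJ.Cpx

section

variable {V : Type} {X : Cpx V} {k : V → ℕ} {R : Type} [Group R] [MulAction R V]

/-- The rank function of the quotient. -/
def kq (hA : ActsK R X k) : QV R V → ℕ :=
  Quotient.lift (s := vS R V) k (by
    rintro x y ⟨g, rfl⟩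
    exact (hA.inv g x).symm)

theorem kq_mk (hA : ActsK R X k) (x : V) : kq hA (qv x) = k x := rfl

theorem k_eq (hA : ActsK R X k) {x y : V} (h : (qv x : QV R V) = qv y) : k x = k y := by
  rw [← kq_mk hA, h, kq_mk]

/-- The quotient. -/
def quoK (hA : ActsK R X k) (hne : ∀ u v, X.adj u v → k u ≠ k v) : Cpx (QV R V) where
  adj u v := ∃ x y, X.adj x y ∧ qv x = u ∧ qv y = v
  tri u v w := ∃ x y z, X.tri x y z ∧ qv x = u ∧ qv y = v ∧ qv z = w
  adj_symm := by
    rintro u v ⟨x, y, h, h1, h2⟩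
    exact ⟨y, x, X.adj_symm _ _ h, h2, h1⟩
  adj_irrefl := by
    rintro u ⟨x, y, h, h1, h2⟩
    exact hne _ _ h (k_eq hA (h1.trans h2.symm))
  tri_rot := by
    rintro u v w ⟨x, y, z, h, h1, h2, h3⟩
    exact ⟨y, z, x, X.tri_rot _ _ _ h, h2, h3, h1⟩
  tri_flip := by
    rintro u v w ⟨x, y, z, h, h1, h2, h3⟩
    exact ⟨y, x, z, X.tri_flip _ _ _ h, h2, h1, h3⟩
  tri_adj := by
    rintro u v w ⟨x, y, z, h, h1, h2, h3⟩
    exact ⟨x, y, X.tri_adj _ _ _ h, h1, h2⟩

/-- The quotient is simply connected. -/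
theorem quoK_simplyConn (hA : ActsK R X k) (hne : ∀ u v, X.adj u v → k u ≠ k v)
    (hX : X.SimplyConn) (hR : Subgroup.closure {r : R | ∃ x : V, r • x = x} = ⊤) :
    (quoK hA hne).SimplyConn := by
  obtain ⟨⟨v₀⟩, hconn, hsc⟩ := hX
  refine ⟨⟨qv v₀⟩, ?_, ?_⟩
  · intro u v
    obtain ⟨x, rfl⟩ := Quotient.exists_rep u
    obtain ⟨y, rfl⟩ := Quotient.exists_rep v
    have := hconn x y
    induction this with
    | refl => exact ReflTransGen.refl
    | tail _ h4 ih => exact ih.tail ⟨_, _, h4, rfl, rfl⟩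
  · intro H _ c hc
    let c' : V → V → H := fun x y => c (qv x) (qv y)
    have hcoc : X.Cocycle c' := ⟨fun u v h => hc.1 _ _ ⟨u, v, h, rfl, rfl⟩,
      fun u v w h => hc.2 _ _ _ ⟨u, v, w, h, rfl, rfl, rfl⟩⟩
    have hq : ∀ (r : R) (x : V), (qv (r • x) : QV R V) = qv x := fun r x =>
      ((qv_eq R).2 ⟨r, rfl⟩).symm
    obtain ⟨g, hg⟩ := hsc H c' hcoc
    have inv : ∀ (r : R) (x y : V), g (r • x) * (g x)⁻¹ = g (r • y) * (g y)⁻¹ := by
      intro r x y
      have := hconn x y
      induction this with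
      | refl => rfl
      | @tail b e _ h4 ih =>
        rw [ih]
        have e1 := hg _ _ h4
        have e2 := hg _ _ (hA.acts.1 r _ _ h4)
        simp only [c', hq] at e1 e2
        rw [e1] at e2
        have e3 : g e = g b * ((g b)⁻¹ * g e) := by group
        rw [e3, e2]
        group
    let S : Subgroup R :=
      { carrier := {r | ∀ x, g (r • x) = g x}
        one_mem' := fun x => by rw [one_smul]
        mul_mem' := fun {a b} ha hb x => by rw [mul_smul, ha, hb]
        inv_mem' := fun {a} ha x => by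
          have := ha (a⁻¹ • x)
          rwa [smul_inv_smul, eq_comm] at this }
    have hS : S = ⊤ := by
      rw [eq_top_iff, ← hR, Subgroup.closure_le]
      rintro r ⟨x, hx⟩ y
      have := inv r x y
      rw [hx, mul_inv_cancel, eq_comm, mul_inv_eq_one] at this
      exact this
    let g' : QV R V → H := Quotient.lift (s := vS R V) g (by
      rintro x y ⟨r, rfl⟩
      have : r ∈ S := by rw [hS]; trivial
      exact (this x).symm)
    refine ⟨g', ?_⟩
    rintro u v ⟨x, y, h, rfl, rfl⟩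
    exact hg _ _ h

section nice

variable (hA : ActsK R X k) (hK : Kt X k)

include hA in
/-- Adjacent vertices of higher rank in one orbit are equal. -/
theorem typ_eq {x y z : V} (h1 : X.adj x y) (h2 : X.adj x z) (h3 : k x < k y)
    (h4 : (qv y : QV R V) = qv z) : y = z := by
  obtain ⟨g, rfl⟩ := (qv_eq R).1 h4
  exact (hA.typ g x y h1 h2 h3).symm

/-- Lifting an adjacent vertex. -/
theorem up_adj {x : V} {v : QV R V} (h : (quoK hA hK.ne).adj (qv x) v) :
    ∃ y, X.adj x y ∧ qv y = v := by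
  obtain ⟨x', y', h1, h2, h3⟩ := h
  obtain ⟨g, hg⟩ := (qv_eq R).1 h2
  refine ⟨g • y', ?_, ?_⟩
  · rw [← hg]
    exact hA.acts.1 g _ _ h1
  · rw [← h3]
    exact ((qv_eq R).2 ⟨g, rfl⟩).symm

theorem dn_inc {p v : V} (h : inc X k p v) : inc (quoK hA hK.ne) (kq hA) (qv p) (qv v) :=
  ⟨h.1, p, v, h.2, rfl, rfl⟩

theorem up_v {p : V} {v : QV R V} (h : inc (quoK hA hK.ne) (kq hA) (qv p) v) :
    ∃ v', inc X k p v' ∧ qv v' = v := by
  obtain ⟨y, h1, h2⟩ := up_adj hA hK h.2
  exact ⟨y, ⟨h.1, h1⟩, h2⟩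

theorem up_p {v : V} {p : QV R V} (h : inc (quoK hA hK.ne) (kq hA) p (qv v)) :
    ∃ p', inc X k p' v ∧ qv p' = p := by
  obtain ⟨y, h1, h2⟩ := up_adj hA hK ((quoK hA hK.ne).adj_symm _ _ h.2)
  refine ⟨y, ⟨?_, X.adj_symm _ _ h1⟩, h2⟩
  rw [← kq_mk hA, h2]
  exact h.1

/-- Lifting a panel and a further vertex on it. -/
theorem up_pv {v : V} {p w : QV R V} (h : inc (quoK hA hK.ne) (kq hA) p (qv v))
    (h' : inc (quoK hA hK.ne) (kq hA) p w) :
    ∃ p' w', inc X k p' v ∧ inc X k p' w' ∧ qv p' = p ∧ qv w' = w := by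
  obtain ⟨p', h1, rfl⟩ := up_p hA hK h
  obtain ⟨w', h2, rfl⟩ := up_v hA hK h'
  exact ⟨p', w', h1, h2, rfl, rfl⟩

theorem kapq (x : V) : kap (kq hA) (qv x) = kap k x := rfl

include hK in
/-- The vertices on a panel of a chamber. -/
theorem ch_adj {c p r : V} (hc : kap k c = false) (h1 : inc X k p c) (h2 : inc X k p r)
    (hr : kap k r = true) : X.adj c r ∧ k c = 0 ∧ k r = 2 := by
  have h3 := inc_ne hK h1
  have h4 := hK.le c
  rw [kap_false] at hc
  rw [kap_true] at hr
  exact ⟨adj2 (hK.flag _ _ _ h1 h2 (by omega)), by omega, hr⟩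

include hA hK in
/-- The panels at a chamber in one orbit are equal. -/
theorem ch_p {c p q : V} (hc : kap k c = false) (h1 : inc X k p c) (h2 : inc X k q c)
    (h3 : (qv p : QV R V) = qv q) : p = q := by
  have h4 := inc_ne hK h1
  have h5 := hK.le c
  rw [kap_false] at hc
  refine typ_eq hA (X.adj_symm _ _ h1.2) (X.adj_symm _ _ h2.2) ?_ h3
  rw [h1.1]
  omega

include hA hK in
/-- The residues at a chamber in one orbit are equal. -/
theorem ch_r {c p q r s : V} (hc : kap k c = false) (h1 : inc X k p c) (h2 : inc X k q c)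
    (hr : inc X k p r) (hs : inc X k q s) (hr' : kap k r = true)
    (h3 : (qv r : QV R V) = qv s) : r = s := by
  have hs' : kap k s = true := by
    rw [kap_true, ← k_eq hA h3, ← kap_true]
    exact hr'
  obtain ⟨a1, a2, a3⟩ := ch_adj hK hc h1 hr hr'
  obtain ⟨b1, b2, b3⟩ := ch_adj hK hc h2 hs hs'
  exact typ_eq hA a1 b1 (by omega) h3

include hA in
/-- The residues at a panel in one orbit are equal. -/
theorem pa_r {p r s : V} (hr : inc X k p r) (hs : inc X k p s) (hr' : kap k r = true)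
    (h3 : (qv r : QV R V) = qv s) : r = s := by
  rw [kap_true] at hr'
  exact typ_eq hA hr.2 hs.2 (by rw [hr.1, hr']; norm_num) h3

theorem flagQ {p u v : QV R V} (h1 : inc (quoK hA hK.ne) (kq hA) p u)
    (h2 : inc (quoK hA hK.ne) (kq hA) p v) (h3 : kq hA u ≠ kq hA v) :
    (quoK hA hK.ne).tri p u v := by
  obtain ⟨p', rfl⟩ := Quotient.exists_rep p
  obtain ⟨u', a1, rfl⟩ := up_v hA hK h1
  obtain ⟨v', a2, rfl⟩ := up_v hA hK h2
  exact ⟨p', u', v', hK.flag _ _ _ a1 a2 h3, rfl, rfl, rfl⟩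

end nice

variable (hN : NiceK X k R)

/-- Lifting a triangle at a residue. -/
theorem up_tri {v y : V} {a b : QV R V} (hv : k v = 2) (hy : X.adj v y) (hya : qv y = a)
    (h : (quoK hN.toActsK hN.kt.ne).tri (qv v) a b) : ∃ z, X.tri v y z ∧ qv z = b := by
  obtain ⟨v', y', z', h1, h2, h3, h4⟩ := h
  obtain ⟨g, hg⟩ := (qv_eq R).1 (h3.trans hya.symm)
  have h5 := hN.acts.2 g _ _ _ h1
  rw [hg] at h5
  have h6 : g • v' = v := by
    refine typ_eq hN.toActsK (x := y) (X.tri_adj _ _ _ (X.tri_flip _ _ _ h5))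
      (X.adj_symm _ _ hy) ?_ ?_
    · have h7 := hN.kt.ne _ _ hy
      have h8 := hN.kt.le y
      have h9 : k (g • v') = 2 := by
        rw [hN.inv, k_eq hN.toActsK h2, hv]
      omega
    · rw [← h2]
      exact ((qv_eq R).2 ⟨g, rfl⟩).symm
  rw [h6] at h5
  refine ⟨g • z', h5, ?_⟩
  rw [← h4]
  exact ((qv_eq R).2 ⟨g, rfl⟩).symm

include hN in
/-- Neighbours of a residue in one orbit differ by an element of its stabilizer. -/
theorem res_stab {v y z : V} (hv : k v = 2) (hy : X.adj v y) (hz : X.adj v z)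
    (h : (qv y : QV R V) = qv z) : ∃ r : R, r • v = v ∧ r • y = z := by
  obtain ⟨r, rfl⟩ := (qv_eq R).1 h
  refine ⟨r, ?_, rfl⟩
  refine (typ_eq hN.toActsK (x := r • y) (X.adj_symm _ _ hz)
    (X.adj_symm _ _ (hN.acts.1 r _ _ hy)) ?_ ((qv_eq R).2 ⟨r, rfl⟩)).symm
  have h7 := hN.kt.ne _ _ hy
  have h8 := hN.kt.le y
  rw [hN.inv]
  omega

/-- Closed walks in the links of the residues of the quotient lift to closed walks. -/
theorem closedK (v : V) (hv : k v = 2) (a : ℕ → QV R V) (n : ℕ) (hn : 0 < n) (hn' : n ≤ 10)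
    (ha : ∀ i, a (i + n) = a i)
    (ht : ∀ i, (quoK hN.toActsK hN.kt.ne).tri (qv v) (a i) (a (i + 1))) :
    ∃ z : ℕ → V, (∀ i, X.tri v (z i) (z (i + 1))) ∧ (∀ i, z (i + n) = z i) ∧
      ∀ i, qv (z i) = a i := by
  obtain ⟨y₀, hy₀, hy₀'⟩ := up_adj hN.toActsK hN.kt ((quoK hN.toActsK hN.kt.ne).tri_adj _ _ _ (ht 0))
  -- the lift
  have hex : ∀ (i : ℕ) (y : {y : V // X.adj v y ∧ qv y = a i}),
      ∃ z : {z : V // X.adj v z ∧ qv z = a (i + 1)}, X.tri v y.1 z.1 := by
    intro i y
    obtain ⟨z, h1, h2⟩ := up_tri hN hv y.2.1 y.2.2 (ht i)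
    exact ⟨⟨z, X.adj_symm _ _ (adj3 h1), h2⟩, h1⟩
  choose nx hnx using hex
  let Y : ∀ i : ℕ, {y : V // X.adj v y ∧ qv y = a i} :=
    fun i => Nat.rec ⟨y₀, hy₀, hy₀'⟩ (fun i y => nx i y) i
  have hY : ∀ i, X.tri v (Y i).1 (Y (i + 1)).1 := fun i => hnx i (Y i)
  set y : ℕ → V := fun i => (Y i).1 with hy
  have hy1 : ∀ i, X.tri v (y i) (y (i + 1)) := hY
  have hy2 : ∀ i, X.adj v (y i) ∧ qv (y i) = a i := fun i => (Y i).2
  obtain ⟨r, hr, hr2⟩ : ∃ r : R, r • v = v ∧ r • y 0 = y n := by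
    refine res_stab hN hv (hy2 0).1 (hy2 n).1 ?_
    rw [(hy2 0).2, (hy2 n).2]
    have := ha 0
    rw [zero_add] at this
    exact this.symm
  have hq : ∀ x : V, (qv (r • x) : QV R V) = qv x := fun x => ((qv_eq R).2 ⟨r, rfl⟩).symm
  -- a closed walk which may be rotated
  obtain ⟨j, z, hj, hz1, hz2, hz3⟩ : ∃ (j : ℕ) (z : ℕ → V), j < n ∧
      (∀ i < n, X.tri v (z i) (z (i + 1))) ∧ z n = z 0 ∧ ∀ i < n, qv (z i) = a (j + i) := by
    by_cases hf : ∀ i ≤ n, ¬ Fx R v (y i)
    · have h1 := hN.far v r hr hv n hn' y (fun i _ => hy1 i) hf hr2.symm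
      refine ⟨0, y, hn, fun i _ => hy1 i, ?_, fun i _ => ?_⟩
      · rw [← hr2, h1, one_smul]
      · rw [zero_add]
        exact (hy2 i).2
    · push Not at hf
      obtain ⟨j, hj, hfj⟩ : ∃ j < n, Fx R v (y j) := by
        obtain ⟨j, hj, hfj⟩ := hf
        rcases hj.lt_or_eq with h1 | h1
        · exact ⟨j, h1, hfj⟩
        · subst h1
          refine ⟨0, hn, Fx.of_smul (g := r) ?_⟩
          rw [hr, hr2]
          exact hfj
      have hrj : r • y j = y j := hN.rigid _ _ (hy2 j).1 hfj r hr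
      refine ⟨j, fun i => if j + i < n then y (j + i) else r • y (j + i - n), hj,
        fun i hi => ?_, ?_, fun i hi => ?_⟩
      · by_cases h1 : j + (i + 1) < n
        · simp only [if_pos h1, if_pos (show j + i < n by omega)]
          exact hy1 _
        · by_cases h2 : j + i < n
          · have e1 : j + (i + 1) - n = 0 := by omega
            have e2 : j + i + 1 = n := by omega
            simp only [if_neg h1, if_pos h2, e1, hr2]
            rw [← e2]
            exact hy1 _
          · simp only [if_neg h1, if_neg h2]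
            have e1 : j + (i + 1) - n = (j + i - n) + 1 := by omega
            rw [e1]
            have := hN.acts.2 r _ _ _ (hy1 (j + i - n))
            rwa [hr] at this
      · have e1 : j + n - n = j := by omega
        simp only [add_zero, if_pos hj, if_neg (show ¬ j + n < n by omega), e1]
        exact hrj
      · by_cases h1 : j + i < n
        · simp only [if_pos h1]
          exact (hy2 _).2
        · simp only [if_neg h1]
          have e1 : j + i = (j + i - n) + n := by omega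
          rw [hq, (hy2 _).2, ← ha, ← e1]
  have hper : ∀ q i, a (i + q * n) = a i := by
    intro q i
    induction q with
    | zero => simp
    | succ q ih =>
      rw [← ih, ← ha (i + q * n)]
      congr 1
      ring
  refine ⟨fun i => z ((i + (n - j)) % n), fun i => ?_, fun i => ?_, fun i => ?_⟩
  · have h1 := Nat.mod_lt (i + (n - j)) hn
    by_cases h2 : (i + (n - j)) % n + 1 < n
    · have e1 : (i + 1 + (n - j)) % n = (i + (n - j)) % n + 1 := by
        rw [show i + 1 + (n - j) = (i + (n - j)) + 1 by ring, Nat.add_mod,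
          Nat.mod_eq_of_lt (a := 1) (by omega), Nat.mod_eq_of_lt h2]
      simp only [e1]
      exact hz1 _ h1
    · have e2 : (i + (n - j)) % n + 1 = n := by omega
      have e1 : (i + 1 + (n - j)) % n = 0 := by
        rw [show i + 1 + (n - j) = (i + (n - j)) + 1 by ring, ← Nat.mod_add_mod, e2, Nat.mod_self]
      simp only [e1]
      rw [← hz2, ← e2]
      have := hz1 _ h1
      convert this using 2
      rw [e2]
  · have e1 : (i + n + (n - j)) % n = (i + (n - j)) % n := by
      rw [show i + n + (n - j) = (i + (n - j)) + n by ring, Nat.add_mod_right]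
    simp only [e1]
  · have h1 := Nat.mod_lt (i + (n - j)) hn
    rw [hz3 _ h1]
    have h2 := Nat.mod_add_div (i + (n - j)) n
    have h3 : j + (i + (n - j)) % n + ((i + (n - j)) / n) * n = i + 1 * n := by
      rw [mul_comm ((i + (n - j)) / n) n]
      omega
    rw [← hper ((i + (n - j)) / n), h3, hper]

/-- Closed walks in the links of the residues of the quotient lift to closed walks. -/
theorem closedF (n : ℕ) (hn : n + 1 ≤ 10) (v : V) (hv : k v = 2) (f : Fin (n + 1) → QV R V)
    (ht : ∀ i, (quoK hN.toActsK hN.kt.ne).tri (qv v) (f i) (f (i + 1))) :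
    ∃ z : Fin (n + 1) → V, (∀ i, X.tri v (z i) (z (i + 1))) ∧ ∀ i, qv (z i) = f i := by
  obtain ⟨z, h1, h2, h3⟩ := closedK hN v hv (fun i => f (Fin.ofNat (n + 1) i)) (n + 1)
    (Nat.succ_pos _) hn (fun i => by
      congr 1
      apply Fin.ext
      simp [Fin.ofNat]) (fun i => by
      have := ht (Fin.ofNat (n + 1) i)
      convert this using 2
      apply Fin.ext
      simp [Fin.ofNat, Fin.val_add])
  refine ⟨fun i => z i.1, fun i => ?_, fun i => ?_⟩
  · have h4 := h1 i.1
    by_cases h5 : i.1 + 1 < n + 1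
    · have e1 : (i + 1 : Fin (n + 1)).1 = i.1 + 1 := by
        rw [Fin.val_add_one_of_lt' h5]
      simp only [e1]
      exact h4
    · have e2 : i.1 + 1 = n + 1 := by
        have := i.2
        omega
      have e1 : (i + 1 : Fin (n + 1)).1 = 0 := by
        have : i = Fin.last n := by
          apply Fin.ext
          simp only [Fin.val_last]
          omega
        rw [this]
        simp
      simp only [e1]
      have h6 : z (i.1 + 1) = z 0 := by
        rw [e2]
        have := h2 0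
        rwa [zero_add] at this
      rw [h6] at h4
      exact h4
  · rw [h3]
    congr 1
    apply Fin.ext
    simp [Fin.ofNat, Nat.mod_eq_of_lt i.2]

end

end Pool.Agent.Helper3.LT
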