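import Pool.Agent.Helper13.LT.Defs

/-!
# The complex of the chambers and residues is simply connected
-/

set_option autoImplicit false

namespace Pool.Agent.Helper3.LT

open Relation Pool.Agent.Helper29.BA Pool.Agent.Helper29.PA Pool.Agent.Helper3.FJ
  Pool.Agent.Helper13.LT Pool.Agent.Helper3.FJ.Cpx

section

variable {V : Type} {X : Cpx V} {k : V → ℕ}

theorem kap_true {v : V} : kap k v = true ↔ k v = 2 := by
  simp [kap]

theorem kap_false {v : V} : kap k v = false ↔ k v ≠ 2 := by
  simp [kap]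

theorem kap_ne (hK : Kt X k) {u v : V} (hu : k u ≠ 1) (hv : k v ≠ 1) :
    kap k u ≠ kap k v ↔ k u ≠ k v := by
  have h1 := hK.le u
  have h2 := hK.le v
  have h3 : kap k u = true ∨ kap k u = false := by cases kap k u <;> simp
  have h4 : kap k v = true ∨ kap k v = false := by cases kap k v <;> simp
  rcases h3 with h3 | h3 <;> rcases h4 with h4 | h4 <;> rw [h3, h4] <;>
    simp only [kap_true, kap_false] at h3 h4 <;> simp <;> omega

theorem inc_ne (hK : Kt X k) {p v : V} (h : inc X k p v) : k v ≠ 1 := by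
  have := hK.ne _ _ h.2
  rw [h.1] at this
  exact this.symm

/-- Adjacent vertices of ranks 0 and 2. -/
theorem Ad_iff (hK : Kt X k) {u v : V} :
    Ad (inc X k) (kap k) u v ↔ X.adj u v ∧ k u ≠ 1 ∧ k v ≠ 1 := by
  constructor
  · rintro ⟨h1, p, h2, h3⟩
    have hu := inc_ne hK h2
    have hv := inc_ne hK h3
    exact ⟨adj2 (hK.flag _ _ _ h2 h3 ((kap_ne hK hu hv).1 h1)), hu, hv⟩
  · rintro ⟨h1, h2, h3⟩
    exact ⟨(kap_ne hK h2 h3).2 (hK.ne _ _ h1), hK.diag _ _ h1 h2 h3⟩

/-- The link to the panels. -/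
theorem conn_sc (hK : Kt X k) (hX : X.SimplyConn) {v₀ : V} (h₀ : k v₀ ≠ 1) (u : V) :
    (k u ≠ 1 → ReflTransGen (Ad (inc X k) (kap k)) v₀ u) ∧
      (k u = 1 → ∀ w, X.adj u w → ReflTransGen (Ad (inc X k) (kap k)) v₀ w) := by
  have := hX.2.1 v₀ u
  induction this with
  | refl => exact ⟨fun _ => ReflTransGen.refl, fun h => (h₀ h).elim⟩
  | @tail b c _ h4 ih =>
    by_cases hb : k b = 1
    · refine ⟨fun _ => ih.2 hb _ h4, fun hc => ?_⟩
      exact (hK.ne _ _ h4 (hb.trans hc.symm)).elim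
    · refine ⟨fun hc => (ih.1 hb).tail ((Ad_iff hK).2 ⟨h4, hb, hc⟩), fun hc w hw => ?_⟩
      have hcb : inc X k c b := ⟨hc, X.adj_symm _ _ h4⟩
      have hcw : inc X k c w := ⟨hc, hw⟩
      by_cases h5 : kap k b = kap k w
      · obtain ⟨x, hx1, hx2⟩ := hK.kc.opp _ _ hcb
        refine ((ih.1 hb).tail ⟨hx2.symm, c, hcb, hx1⟩).tail ⟨?_, c, hx1, hcw⟩
        rw [← h5]
        exact hx2
      · exact (ih.1 hb).tail ⟨h5, c, hcb, hcw⟩

/-- The complex of the chambers and residues is simply connected. -/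
theorem Kt_sc (hK : Kt X k) (hX : X.SimplyConn) {v₀ : V} (h₀ : k v₀ ≠ 1) :
    SC (inc X k) (kap k) v₀ := by
  classical
  refine ⟨fun p v h => (conn_sc hK hX h₀ p).2 h.1 v h.2, ?_⟩
  intro H _ c hc1 hc2
  -- the chosen vertex on the panel
  have hb : ∀ p : V, ∃ b : V, (∃ v, inc X k p v) → inc X k p b := by
    intro p
    by_cases h : ∃ v, inc X k p v
    · obtain ⟨v, hv⟩ := h
      exact ⟨v, fun _ => hv⟩
    · exact ⟨p, fun h' => (h h').elim⟩
  choose b hb using hb
  -- the chosen opposite vertex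
  have ho : ∀ p v : V, ∃ u : V, inc X k p v → inc X k p u ∧ kap k u ≠ kap k v := by
    intro p v
    by_cases h : inc X k p v
    · obtain ⟨u, hu⟩ := hK.kc.opp p v h
      exact ⟨u, fun _ => hu⟩
    · exact ⟨p, fun h' => (h h').elim⟩
  choose o ho using ho
  let φ : V → V → H := fun v p =>
    if kap k v = kap k (b p) then c v (o p v) * c (o p v) (b p) else c v (b p)
  have hφ : ∀ p v u, inc X k p v → inc X k p u → kap k u ≠ kap k v →
      kap k v = kap k (b p) → φ v p = c v u * c u (b p) := by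
    intro p v u hv hu huv hvb
    obtain ⟨ho1, ho2⟩ := ho p v hv
    have hbp := hb p ⟨v, hv⟩
    simp only [φ, if_pos hvb]
    refine hc2 p v (b p) (o p v) u hv hbp ho1 hu hvb ?_ ho2.symm
    revert ho2 huv
    cases kap k (o p v) <;> cases kap k u <;> cases kap k v <;> simp
  have hφ2 : ∀ p u v, inc X k p u → inc X k p v → kap k u ≠ kap k v →
      φ u p * (φ v p)⁻¹ = c u v := by
    intro p u v hu hv huv
    have had : Ad (inc X k) (kap k) u v := ⟨huv, p, hu, hv⟩
    have h1 := hc1 _ _ had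
    have hbp := hb p ⟨v, hv⟩
    by_cases h2 : kap k v = kap k (b p)
    · have h3 : kap k u ≠ kap k (b p) := h2 ▸ huv
      rw [hφ p v u hv hu huv h2]
      simp only [φ, if_neg h3]
      rw [mul_inv_rev, mul_inv_cancel_left]
      exact (eq_inv_of_mul_eq_one_left h1).symm
    · have h3 : kap k u = kap k (b p) := by
        revert h2 huv
        cases kap k (b p) <;> cases kap k u <;> cases kap k v <;> simp
      rw [hφ p u v hu hv huv.symm h3]
      simp only [φ, if_neg h2]
      rw [mul_inv_cancel_right]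
  let c' : V → V → H := fun u v =>
    if k v = 1 then φ u v else if k u = 1 then (φ v u)⁻¹ else c u v
  have e1 : ∀ u v, inc X k v u → c' u v = φ u v := fun u v h => if_pos h.1
  have e2 : ∀ u v, inc X k u v → c' u v = (φ v u)⁻¹ := fun u v h => by
    simp only [c', if_neg (inc_ne hK h), if_pos h.1]
  have e3 : ∀ u v, k u ≠ 1 → k v ≠ 1 → c' u v = c u v := fun u v h h' => by
    simp only [c', if_neg h, if_neg h']
  have hcoc : X.Cocycle c' := by
    refine ⟨fun u v h => ?_, ?_⟩
    · by_cases hu : k u = 1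
      · rw [e2 u v ⟨hu, h⟩, e1 v u ⟨hu, h⟩, inv_mul_cancel]
      · by_cases hv : k v = 1
        · rw [e1 u v ⟨hv, X.adj_symm _ _ h⟩, e2 v u ⟨hv, X.adj_symm _ _ h⟩, mul_inv_cancel]
        · rw [e3 u v hu hv, e3 v u hv hu]
          exact hc1 _ _ ((Ad_iff hK).2 ⟨h, hu, hv⟩)
    · have key : ∀ u v w, X.tri u v w → k u = 1 → c' u v * c' v w * c' w u = 1 := by
        intro u v w h hu
        have h1 : inc X k u v := ⟨hu, X.tri_adj _ _ _ h⟩
        have h2 : inc X k u w := ⟨hu, X.adj_symm _ _ (adj3 h)⟩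
        have h3 := hK.ne _ _ (adj2 h)
        have hv := inc_ne hK h1
        have hw := inc_ne hK h2
        rw [e2 u v h1, e1 w u h2, e3 v w hv hw,
          ← hφ2 u v w h1 h2 ((kap_ne hK hv hw).2 h3)]
        group
      intro u v w h
      by_cases hu : k u = 1
      · exact key u v w h hu
      by_cases hv : k v = 1
      · have := key v w u (X.tri_rot _ _ _ h) hv
        rw [mul_assoc, mul_eq_one_iff_eq_inv] at this
        rw [this]
        group
      by_cases hw : k w = 1
      · have := key w u v (X.tri_rot _ _ _ (X.tri_rot _ _ _ h)) hw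
        rw [mul_assoc, mul_eq_one_iff_eq_inv] at this
        rw [this]
        group
      · exfalso
        have n1 := hK.ne _ _ (X.tri_adj _ _ _ h)
        have n2 := hK.ne _ _ (adj2 h)
        have n3 := hK.ne _ _ (adj3 h)
        have l1 := hK.le u
        have l2 := hK.le v
        have l3 := hK.le w
        omega
  obtain ⟨g, hg⟩ := hX.2.2 H c' hcoc
  refine ⟨g, fun u v h => ?_⟩
  obtain ⟨h1, h2, h3⟩ := (Ad_iff hK).1 h
  rw [← e3 u v h2 h3]
  exact hg _ _ h1

end

end Pool.Agent.Helper3.LT
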